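import Pool.Agent.Helper48.T5g.EvDig
import Pool.Agent.Helper33.T5g.SplitOf
import Pool.Agent.Helper22.NEARsg.Defs
import Pool.Agent.Helper39.T5g.RepF
import Pool.Agent.Helper48.T5g.NumS2

/-!
# T5g, CaseSplitInj: pairs across a SPLIT without common front, short distance

`s = sL m k l'`, `sL m k l = s + 1`.  Levels used: the levels `1, ..., h` of the state `l` against
the levels `0, ..., h - 1` of the state `l'` (`h = 1` or `h = 2`); the level `0` of `l'` has an outer
key `o`.  There is no common front; the front number `0` of the block is the number `4 FF l 1`.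
-/

set_option autoImplicit false

namespace Pool.Agent.Helper21.T5g

open Finset Pool.Agent.Helper27.T4
open Pool.Agent.Helper37.T5g
open Pool.Agent.Helper30.T5g hiding pz_prime pz_inj NL_pos
open Pool.Agent.Helper22.HW Pool.Agent.Helper22.SL Pool.Agent.Helper57.T5
open Pool.Agent.Helper39.T5 Pool.Agent.Helper84.T5g
open Pool.Agent.Helper48.T5g (SplitP Win)
open Pool.Agent.Helper54.T5g (SplitDig lowJ)
open Pool.Agent.Helper5.ET (bb era mask)

/-- the data of a pair -/
structure SZ (m : Sq) (k s l' l : ℕ) : Prop where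
  P : SplitP m k s l' l
  D : SplitDig m k l' l
  short : 20 * (l - l') < 7 * SS m s
  jump : ∀ i, 1 ≤ i → i ≤ k + 1 → ez m (s + 1 - i) l' ≠ ez m (s + 1 - i) l
  keyed' : ¬ keyed m k (mL m k l')
  near : Near m k l' l
  split : Split m k l' l
  ev : Pool.Agent.Helper37.T5g.SplitEv m k (mL m k l') (mL m k l)
  zf0 : ∀ f, zf m k (sL m k l) f ≠ 0
  Qk : QQ m k (sL m k l) 0 ≤ (Pool.Agent.Helper98.T5g.M0 m k l' l).q
  AA : FF m k l 0 ≤ FF m k l' 0

/-- **the data of a late pair** -/
theorem exists_SZg {m : Sq} (hm : m.Ok) (k : ℕ)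
    [hQ : Pool.Agent.Helper30.T5g.BigQ m k] : ∃ l0 : ℕ, ∀ l l' : ℕ, l0 ≤ l' → l' ≤ l →
    Near m k l' l → Split m k l' l → 20 * (l - l') < 7 * SS m (sL m k l') →
    (∀ i, 1 ≤ i → i ≤ k + 1 → ez m (sL m k l' + 1 - i) l' ≠ ez m (sL m k l' + 1 - i) l) →
    SZ m k (sL m k l') l' l := by
  obtain ⟨l0, h0⟩ := Pool.Agent.Helper30.T5g.exists_late (k := k) hm 0 0
  obtain ⟨l1, h1⟩ := Pool.Agent.Helper48.T5g.s2_fin hm k
  refine ⟨max l0 l1, fun l l' hl' hll hN hS hsh hj => ?_⟩
  obtain ⟨_, a2, a3, _, _⟩ := h0 l' ((le_max_left _ _).trans hl')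
  have hlt : l' < l := by
    rcases Nat.lt_or_ge l' l with h1 | h1
    · exact h1
    · exfalso
      have e : l' = l := le_antisymm hll h1
      have h2 := hS.1
      rw [e] at h2
      omega
  have hE := Pool.Agent.Helper33.T5g.splitEv_of_near hm hll a2 a3 hN hS
  have hP := Pool.Agent.Helper33.T5g.splitP_of_near hm hll a2 a3 hN hS
  have hD := Pool.Agent.Helper48.T5g.SplitDig_of hm hlt hE
  obtain ⟨b1, b2, b3, -⟩ := h1 l' l ((le_max_right _ _).trans hl') hlt hE (by omega)
    (hj 1 le_rfl (by omega))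
  exact ⟨hP, hD, hsh, hj, hE.keyed', hN, hS, hE, b1, b2, b3⟩

/-- **the data of a late pair of the case INJ** -/
theorem exists_SZ {m : Sq} (hm : m.Ok) (k : ℕ)
    [hQ : Pool.Agent.Helper30.T5g.BigQ m k] : ∃ l0 : ℕ, ∀ l l' : ℕ, l0 ≤ l' → l' ≤ l →
    CaseSplitInj m k l' l → SZ m k (sL m k l') l' l := by
  obtain ⟨l0, h0⟩ := Pool.Agent.Helper30.T5g.exists_late (k := k) hm 0 0
  obtain ⟨l1, h1⟩ := exists_SZg hm k
  refine ⟨max l0 l1, fun l l' hl' hll hc => ?_⟩
  obtain ⟨⟨hN, hCf⟩, hS, hi⟩ := hc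
  obtain ⟨_, a2, a3, _, _⟩ := h0 l' ((le_max_left _ _).trans hl')
  have hP := Pool.Agent.Helper33.T5g.splitP_of_near hm hll a2 a3 hN hS
  refine h1 l l' ((le_max_right _ _).trans hl') hll hN hS ?_ ?_
  · have h2 := ez_sub_le hm (sL m k l') l'
    have e : ef m k l' 0 = ez m (sL m k l') l' := rfl
    rw [e] at hi
    have h3 : 0 < SS m (sL m k l') := SS_pos m _
    omega
  · intro i hi1 hi2 he
    have e1 := hP.s1
    have e2 := hP.b'
    have e3 := hP.b1
    have e4 := hP.ks
    refine hCf (sL m k l' + 1 - i) ⟨?_, ?_, he⟩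
    · rw [e2, e3, max_self]
      omega
    · omega

/-- **the data of a late pair above the joint front of the lower state, short distance** -/
theorem exists_SZ2 {m : Sq} (hm : m.Ok) (k : ℕ)
    [hQ : Pool.Agent.Helper30.T5g.BigQ m k] : ∃ l0 : ℕ, ∀ l l' : ℕ, l0 ≤ l' → l' ≤ l →
    Near m k l' l → Split m k l' l → ef m k l' 0 < l → 20 * (l - l') < 7 * SS m (sL m k l') →
    SZ m k (sL m k l') l' l := by
  obtain ⟨l1, h1⟩ := exists_SZg hm k
  refine ⟨l1, fun l l' hl' hll hN hS hi hsh => ?_⟩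
  refine h1 l l' hl' hll hN hS hsh ?_
  intro i hi1 hi2 he
  have h2 : ez m (sL m k l' + 1 - i) l' ≤ ez m (sL m k l') l' :=
    Pool.Agent.Helper30.T5g.ez_le hm (by omega) l'
  have h3 := lt_ez hm (sL m k l' + 1 - i) l
  have e : ef m k l' 0 = ez m (sL m k l') l' := rfl
  omega

/-- the static levels of a pair, outer key `o` -/
noncomputable abbrev PZ (m : Sq) (k h l' l : ℕ) (o : JF → ℕ) : Pr Key :=
  Pool.Agent.Helper39.T5g.PF m k 1 l' l o h (4 * FF m k l 1)

/-- the same with the plain fronts -/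
noncomputable def PW (m : Sq) (k h l' l : ℕ) (o : JF → ℕ) : Pr Key where
  h := h
  p := (Pool.Agent.Helper22.NEARsg.PN m k 1 l' l o).p
  z := (Pool.Agent.Helper22.NEARsg.PN m k 1 l' l o).z
  M := (Pool.Agent.Helper22.NEARsg.PN m k 1 l' l o).M
  M' := (Pool.Agent.Helper22.NEARsg.PN m k 1 l' l o).M'
  L0 := (Pool.Agent.Helper22.NEARsg.PN m k 1 l' l o).L0
  F := (Pool.Agent.Helper22.NEARsg.PN m k 1 l' l o).F
  F' := (Pool.Agent.Helper22.NEARsg.PN m k 1 l' l o).F'
  Y := (Pool.Agent.Helper22.NEARsg.PN m k 1 l' l o).Y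
  key := (Pool.Agent.Helper22.NEARsg.PN m k 1 l' l o).key
  key' := (Pool.Agent.Helper22.NEARsg.PN m k 1 l' l o).key'

/-- the number of levels used -/
noncomputable def hz (m : Sq) (s l' l : ℕ) : ℕ := if 20 * (l - l') < 7 * SS m (s - 1) then 2 else 1

theorem one_le_hz (m : Sq) (s l' l : ℕ) : 1 ≤ hz m s l' l := by
  unfold hz
  split_ifs <;> omega

theorem hz_le_two (m : Sq) (s l' l : ℕ) : hz m s l' l ≤ 2 := by
  unfold hz
  split_ifs <;> omega

variable {m : Sq} {k s l' l : ℕ}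

namespace SZ

theorem lt (h : SZ m k s l' l) : l' < l := h.D.ll

theorem sl (h : SZ m k s l' l) : sL m k l = s + 1 := h.P.s1

theorem sl' (h : SZ m k s l' l) : sL m k l' = s := h.P.s'

/-- the distance is large against the second window -/
theorem lt_dist (hm : m.Ok) (hk : 1 ≤ k) (h : SZ m k s l' l) : SS m (s - 1) < 1024 * (l - l') := by
  have h1 := h.jump 1 le_rfl (by omega)
  have h2 := h.jump 2 (by omega) (by omega)
  have e1 : s + 1 - 1 = s := rfl
  have e2 : s + 1 - 2 = s - 1 := rfl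
  rw [e1] at h1
  rw [e2] at h2
  have hks := h.P.ks
  have h3 := two_jumps hm (show s - 1 < s by omega) h.lt.le h2 h1
  have h4 := PZ_mul hm (s - 1)
  omega

/-- the window below the levels used -/
theorem hz_spec (hm : m.Ok) (hk : 2 ≤ k) (h : SZ m k s l' l) :
    7 * SS m (s - hz m s l' l) ≤ 20 * (l - l') := by
  have hks := h.P.ks
  unfold hz
  split_ifs with hc
  · have h1 := h.lt_dist hm (by omega)
    have h2 := SS_succ_ge hm (s - 2)
    rw [show s - 2 + 1 = s - 1 by omega] at h2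
    have h3 : 2 ^ 20 * SS m (s - 2) ≤ SS m (s - 1) :=
      (Nat.mul_le_mul_right _ (Nat.pow_le_pow_right (by norm_num) (by norm_num))).trans h2
    norm_num at h3
    omega
  · omega

theorem D7 (hm : m.Ok) (h : SZ m k s l' l) {r : ℕ} (hr : r < hz m s l' l) :
    20 * (l - l') < 7 * SS m (s - r) := by
  unfold hz at hr
  split_ifs at hr with hc
  · rcases Nat.lt_or_ge r 1 with h1 | h1
    · have e : r = 0 := by omega
      subst e
      rw [Nat.sub_zero]
      exact h.short
    · have e : r = 1 := by omega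
      subst e
      exact hc
  · have e : r = 0 := by omega
    subst e
    rw [Nat.sub_zero]
    exact h.short

theorem ef1 (h : SZ m k s l' l) (t : ℕ) : ef m k l t = ez m (s + 1 - t) l := by
  unfold ef
  rw [h.sl]

theorem ef0' (h : SZ m k s l' l) (t : ℕ) : ef m k l' t = ez m (s - t) l' := by
  unfold ef
  rw [h.sl']

end SZ

end Pool.Agent.Helper21.T5g
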