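import Pool.Agent.Helper21.T5g.SZRp
import Pool.Agent.Helper22.NEARsg.Glue
import Pool.Agent.Helper39.T5g.SlInstS
import Pool.Agent.Helper39.T5g.RepF
import Pool.Agent.Helper45.T5g.Nb5V
import Pool.Agent.Helper57.T5g.ZB
import Pool.Agent.Helper2.T5g.ZSize
import Pool.Agent.Helper37.T5g.NumB

/-!
# T5g, pairs across SPLIT without common front, short distance: assembly
-/

set_option autoImplicit false

namespace Pool.Agent.Helper21.T5g

open Finset Pool.Agent.Helper27.T4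
open Pool.Agent.Helper37.T5g
open Pool.Agent.Helper30.T5g hiding pz_prime pz_inj NL_pos
open Pool.Agent.Helper22.HW Pool.Agent.Helper22.SL Pool.Agent.Helper57.T5
open Pool.Agent.Helper39.T5 hiding deep
open Pool.Agent.Helper84.T5g Pool.Agent.Helper1.T5
open Pool.Agent.Helper48.T5g (SplitP Win Cpl)
open Pool.Agent.Helper54.T5g (SplitDig lowJ)
open Pool.Agent.Helper5.ET (bb era mask)
open Pool.Agent.Helper45.T5g (OK)
open Pool.Agent.Helper44.T5g (Zw)
open Pool.Agent.Helper22.NEARg (RegE wW)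
open Pool.Agent.Helper22.NEARsg (Bw ZwO deep)
open Pool.Agent.Helper99.T5g (OkF)

variable {m : Sq} {k s l' l : ℕ}

theorem sz_sub (m : Sq) (s l' l : ℕ) : sz m s l' l - 1 = hz m s l' l := by
  unfold sz
  omega

/-- the constant of the levels -/
theorem Cd_PZ (hm : OkF m) (o : JF → ℕ) :
    Pool.Agent.Helper39.SL.Cd (PZ m m.k (hz m s l' l) l' l o) ≤ 2 ^ (2 * m.q 0) := by
  have h3 := hz_le_two m s l' l
  have hsp : 1 ≤ 2 * BP m.k := by
    have := BP_pos m.k
    omega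
  have h1 : ∀ r ∈ range (PZ m m.k (hz m s l' l) l' l o).h,
      ∏ i, (2 * ((PZ m m.k (hz m s l' l) l' l o).p r i - 1)) ≤ (2 * BP m.k) ^ 3 := by
    intro r _
    calc ∏ i, (2 * ((PZ m m.k (hz m s l' l) l' l o).p r i - 1)) ≤
          ∏ _i : Fin 3, (2 * BP m.k) := by
          apply prod_le_prod'
          intro i _
          have h2 : (PZ m m.k (hz m s l' l) l' l o).p r i = pz m.k (sL m m.k l - (1 + r)) i := rfl
          have h4 := pz_le m.k (sL m m.k l - (1 + r)) i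
          rw [h2]
          omega
      _ = (2 * BP m.k) ^ 3 := by rw [prod_const, card_univ, Fintype.card_fin]
  refine le_trans ?_ (Pool.Agent.Helper37.T5g.NumB.CD_le hm)
  unfold Pool.Agent.Helper39.SL.Cd
  calc ∏ r ∈ range (PZ m m.k (hz m s l' l) l' l o).h,
        ∏ i, (2 * ((PZ m m.k (hz m s l' l) l' l o).p r i - 1)) ≤
        ∏ _r ∈ range (PZ m m.k (hz m s l' l) l' l o).h, (2 * BP m.k) ^ 3 := prod_le_prod' h1
    _ = ((2 * BP m.k) ^ 3) ^ (hz m s l' l) := by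
        rw [prod_const, card_range]
        rfl
    _ ≤ ((2 * BP m.k) ^ 3) ^ 3 :=
        Nat.pow_le_pow_right (Nat.pos_of_ne_zero (by positivity)) (by omega)

/-- the event of the windows -/
def WinBad (m : Sq) (k s l' l : ℕ) (w : Key → ℕ) : Prop :=
  ¬ RegE m k l (sz m s l' l) w ∨ ¬ RegE m k l' (hz m s l' l) w

theorem RegE_congr {m : Sq} {k l i : ℕ} {w w' : Key → ℕ} (h : Bw m k l i w = Bw m k l i w') :
    RegE m k l i w ↔ RegE m k l i w' := by
  unfold RegE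
  have h' : Pool.Agent.Helper22.NEARg.Bw m k l i w = Pool.Agent.Helper22.NEARg.Bw m k l i w' := h
  rw [h']

theorem Bw_congr_deep (hm : m.Ok) (hl : bb 0 ≤ mL m k l) (hl' : bb 0 ≤ mL m k l') {i : ℕ}
    {w w' : Key → ℕ} (h : ∀ q ∈ deep m k l l' i, w q = w' q) :
    Bw m k l i w = Bw m k l i w' ∧ Bw m k l' (i - 1) w = Bw m k l' (i - 1) w' :=
  ⟨Pool.Agent.Helper22.NEARg.Bw_congr hm hl (fun q hq => h q (mem_union_left _ hq)),
    Pool.Agent.Helper22.NEARg.Bw_congr hm hl' (fun q hq => h q (mem_union_right _ hq))⟩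

theorem WinBad_congr (hm : m.Ok) (hl : bb 0 ≤ mL m k l) (hl' : bb 0 ≤ mL m k l')
    {w w' : Key → ℕ} (h : ∀ q ∈ deep m k l l' (sz m s l' l), w q = w' q) :
    WinBad m k s l' l w ↔ WinBad m k s l' l w' := by
  obtain ⟨d1, d2⟩ := Bw_congr_deep hm hl hl' h
  rw [sz_sub] at d2
  unfold WinBad
  rw [RegE_congr d1, RegE_congr d2]

/-- the probability of a failure -/
theorem fail_bound {γ : Type*} (O : Finset γ) {h N l n1 q W V : ℕ} {d ε : ℝ} (hq : 400 ≤ q)
    (hexp : (2 : ℝ) ^ (3 * q) * l + V ≤ (N + 1 : ℕ) * d)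
    (hn1 : (n1 : ℝ) ≤ Real.exp (2 ^ q * l)) (hW : W ≤ l)
    (hO : (O.card : ℝ) ≤ Real.exp (28 * (W : ℝ))) {S : ℕ} (hS : S ≤ W) (hh : h ≤ 2) :
    2 * Real.exp (-(V : ℝ)) + (ε + ∑ _c ∈ O, (n1 : ℝ) *
      ((3 * (h : ℝ) + 1) * Real.exp (42 * S) * Real.exp (-d) ^ (N + 1))) ≤
      ε + 10 * Real.exp (-(V : ℝ)) := by
  have h1 : Real.exp (-d) ^ (N + 1) = Real.exp (-((N + 1 : ℕ) * d)) := by
    rw [← Real.exp_nat_mul]
    congr 1
    ring
  have hl0 : (0 : ℝ) ≤ l := Nat.cast_nonneg _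
  have hW' : (W : ℝ) ≤ l := Nat.cast_le.2 hW
  have hS' : (S : ℝ) ≤ l := Nat.cast_le.2 (hS.trans hW)
  have hh' : (h : ℝ) ≤ 2 := by exact_mod_cast hh
  have hpow : (2 : ℝ) ^ q + 70 ≤ 2 ^ (3 * q) := by
    have e1 : (2 : ℕ) ^ 7 ≤ 2 ^ q := Nat.pow_le_pow_right (by norm_num) (by omega)
    have e2 : (2 : ℕ) ^ (q + 1) ≤ 2 ^ (3 * q) := Nat.pow_le_pow_right (by norm_num) (by omega)
    have e3 : (2 : ℕ) ^ q + 70 ≤ 2 ^ (3 * q) := by
      rw [pow_succ] at e2
      omega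
    exact_mod_cast e3
  have h2 : ∑ _c ∈ O, (n1 : ℝ) *
      ((3 * (h : ℝ) + 1) * Real.exp (42 * S) * Real.exp (-d) ^ (N + 1)) ≤
        7 * Real.exp (-(V : ℝ)) := by
    rw [Finset.sum_const, nsmul_eq_mul, h1]
    calc (O.card : ℝ) * ((n1 : ℝ) *
        ((3 * (h : ℝ) + 1) * Real.exp (42 * S) * Real.exp (-((N + 1 : ℕ) * d))))
        ≤ Real.exp (28 * (l : ℝ)) * (Real.exp (2 ^ q * l) *
          (7 * Real.exp (42 * l) *
            Real.exp (-((2 : ℝ) ^ (3 * q) * l + V)))) := by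
          have g1 : (O.card : ℝ) ≤ Real.exp (28 * (l : ℝ)) :=
            hO.trans (Real.exp_le_exp.2 (by linarith))
          have g2 : Real.exp (42 * (S : ℝ)) ≤ Real.exp (42 * (l : ℝ)) :=
            Real.exp_le_exp.2 (by linarith)
          have g3 : Real.exp (-((N + 1 : ℕ) * d)) ≤
              Real.exp (-((2 : ℝ) ^ (3 * q) * l + V)) :=
            Real.exp_le_exp.2 (by linarith)
          have g4 : 3 * (h : ℝ) + 1 ≤ 7 := by linarith
          have g5 : 0 ≤ 3 * (h : ℝ) + 1 := by positivity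
          refine mul_le_mul g1 (mul_le_mul hn1 (mul_le_mul (mul_le_mul g4 g2
            (Real.exp_pos _).le (by norm_num)) g3 (Real.exp_pos _).le (by positivity))
            (by positivity) (Real.exp_pos _).le) (by positivity) (Real.exp_pos _).le
      _ = 7 * Real.exp (28 * (l : ℝ) + 2 ^ q * l + 42 * l +
            -((2 : ℝ) ^ (3 * q) * l + V)) := by
          rw [Real.exp_add, Real.exp_add, Real.exp_add]
          ring
      _ ≤ 7 * Real.exp (-(V : ℝ)) := by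
          apply mul_le_mul_of_nonneg_left _ (by norm_num)
          apply Real.exp_le_exp.2
          have e4 := mul_le_mul_of_nonneg_right hpow hl0
          nlinarith
  have h3 := Real.exp_pos (-(V : ℝ))
  linarith

/-- **one pair**, the multiplicity of the labels is a hypothesis -/
theorem pair_of : ∃ E : ℕ, ∀ m : Sq, OkF m → KeyI m m.k → NumI m m.k → PpI m m.k →
    ∃ K0 : ℕ, ∀ s l' l, K0 ≤ l' → SZ m m.k s l' l → ∀ K : Finset Key,
      keysOf m m.k l ⊆ K → keysOf m m.k l' ⊆ K → ∀ (CI : ℕ) (ε : ℝ), 0 ≤ ε →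
      PrG (Mk m m.k) (keysV m m.k l l') (fun w => ∃ s' : ℕ, CI <
        ((LaZ m m.k l' l).filter (fun z => VZ m m.k l' l w z = s')).card) ε →
      ∀ N : ℕ, 1 ≤ N → (2 : ℝ) ^ (3 * m.q 0) * l + SS m (bL m m.k l) ≤
        (N + 1 : ℕ) * dZ m s l' l →
      PrG (Mk m m.k) K (fun w => ∃ n, CI * ((N + 1) ^ 256 * 2 ^ (E * m.q 0)) <
        Rp m m.k l l' w n) (ε + 10 * Real.exp (-(SS m (bL m m.k l) : ℝ))) := by
  classical
  obtain ⟨E1, hZ⟩ := Pool.Agent.Helper57.T5g.zbadS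
  refine ⟨E1 + 3, fun m hF hK hN hW => ?_⟩
  have hQ := Pool.Agent.Helper30.T5g.bigQ_of_okF hF
  have hm0 : m.Ok := hF.toOk
  have hk2 : 2 ≤ m.k := hF.k2
  have hq := hF.q 0
  obtain ⟨k1, hK⟩ := hK
  obtain ⟨k2, hN⟩ := hN
  obtain ⟨k3, hW⟩ := hW
  obtain ⟨k4, hR⟩ := rpI hm0 m.k
  obtain ⟨k5, hL⟩ := Pool.Agent.Helper63.T5g.exists_lateN hm0 m.k 0
  obtain ⟨k6, hReg⟩ := Pool.Agent.Helper45.T5g.reg_all m m.k hm0
  obtain ⟨k7, hZ⟩ := hZ m hF
  obtain ⟨k8, hS⟩ := Pool.Agent.Helper2.T5g.sizeZS hF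
  obtain ⟨k9, hc⟩ := Pool.Agent.Helper44.T5g.exists_conds hm0 m.k
  obtain ⟨k10, hbuf⟩ := Pool.Agent.Helper45.T5g.bufL_of_okF hF
  refine ⟨k1 + k2 + k3 + k4 + k5 + k6 + k7 + k8 + k9 + k10,
    fun s l' l hl' h K hKl hKl' CI ε hε hmult N hN1 hexp => ?_⟩
  have hll := h.lt.le
  obtain ⟨b1, -, -, -⟩ := hc l (by omega)
  obtain ⟨b1', -, -, -⟩ := hc l' (by omega)
  obtain ⟨K1, K2, K3, K4⟩ := hK s l' l (by omega) h
  have hLN := hL l' (by omega)
  obtain ⟨R1, R2⟩ := hR s l' l (by omega) h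
  obtain ⟨S1, S2, -⟩ := hS l (by omega)
  have hb' := hbuf l' (by omega)
  have hr1 := h.P.rL1
  have hr1' := h.P.rL'
  have hh1 := one_le_hz m s l' l
  have hh2 := hz_le_two m s l' l
  have hks := h.P.ks
  have hsL := h.sl
  have hsL' := h.sl'
  have hSP : SplitP m m.k (sL m m.k l') l' l := by
    rw [hsL']
    exact h.P
  set R0 : ℕ := 2 ^ (E1 * m.q 0) with hR0
  -- the windows
  have e0 : bL m m.k l ≤ sL m m.k l - sz m s l' l := by
    unfold sz
    rw [hsL, h.P.b1]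
    omega
  have e1 : SS m (bL m m.k l) ≤ wW m m.k l (sz m s l' l) := SS_mono m e0
  have e2 : SS m (bL m m.k l) ≤ wW m m.k l' (hz m s l' l) := by
    refine SS_mono m ?_
    rw [hsL', h.P.b1]
    omega
  have hbad : PrG (Mk m m.k) K (fun w => WinBad m m.k s l' l w)
      (2 * Real.exp (-(SS m (bL m m.k l) : ℝ))) := by
    have r1 := hReg l (sz m s l' l) (by omega) (by unfold sz; omega) (by unfold sz; omega) K hKl
    have r2 := hReg l' (hz m s l' l) (by omega) (by omega) (by omega) K hKl'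
    refine PrG_mono (fun r _ hw => hw) ?_ (PrG_or r1 r2)
    have f1 : Real.exp (-(wW m m.k l (sz m s l' l) : ℝ)) ≤
        Real.exp (-(SS m (bL m m.k l) : ℝ)) :=
      Real.exp_le_exp.2 (neg_le_neg (Nat.cast_le.2 e1))
    have f2 : Real.exp (-(wW m m.k l' (hz m s l' l) : ℝ)) ≤
        Real.exp (-(SS m (bL m m.k l) : ℝ)) :=
      Real.exp_le_exp.2 (neg_le_neg (Nat.cast_le.2 e2))
    linarith
  have hbad2 := Pool.Agent.Helper22.NEARsg.to_deep hKl hKl'
    (A := fun w => WinBad m m.k s l' l w)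
    (fun w w' hww => WinBad_congr hm0 b1 b1' hww) hbad
  have hP : ∀ o : JF → ℕ, (PZ m m.k (hz m s l' l) l' l o).Ok (Mk m m.k) :=
    fun o => h.ok hm0 hk2 o hLN
  have hKV : keysV m m.k l l' ⊆ K := by
    unfold keysV
    exact (filter_subset _ _).trans (union_subset hKl hKl')
  have key := Pool.Agent.Helper21.T5b.L0.near_ctx
    (Pc := fun o => PZ m m.k (hz m s l' l) l' l o) (Cx := OK m m.k l' 0)
    hP (Mk_pos m m.k) (K1 := keysV m m.k l l') (K2 := deep m m.k l l' (sz m s l' l)) (K := K)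
    K3 hKV (Pool.Agent.Helper22.NEARsg.deep_sub hKl hKl') (La := LaZ m m.k l' l) (ctxZ m m.k l')
    (V := VZ m m.k l' l) K1 (K4 K hKl hKl')
    (fun _ w => Bw m m.k l (sz m s l' l) w) (fun _ w => Bw m m.k l' (hz m s l' l) w)
    (fun _ w => Zw m m.k l 1 w) (fun o w => ZwO m m.k l' 0 o w)
    (fun o _ w w' hww => by
      obtain ⟨d1, d2⟩ := Bw_congr_deep hm0 b1 b1' hww
      rw [sz_sub] at d2
      exact ⟨d1, d2⟩)
    (fun o _ w => Pool.Agent.Helper39.T5g.rep_PF (hP o) hm0 (by omega) w)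
    (fun o _ w => by
      have d1 := Pool.Agent.Helper39.T5g.rep_PF' hSP le_rfl (hP o) hm0 hh1 (by omega) w
      have d2 : 1 + hz m s l' l - 1 = hz m s l' l := by omega
      rw [d2] at d1
      exact d1)
    (n1 := 34 * NL m m.k l + 1) (I := LZn m m.k l' l l') (R0 := R0) (Ir := IrZ m m.k l' l)
    (fun o _ w _ n _ => h.tgS hm0 _ o w n _)
    (fun o _ w _ n _ => h.card_tg hm0 _ o w n _)
    (ρ := Real.exp (-(dZ m s l' l))) (Γ := Real.exp (42 * SS m s)) (Real.exp_pos _).le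
    (fun o _ => (hN s l' l (by omega) h o).hA) (fun o _ => (hN s l' l (by omega) h o).hB)
    (fun o _ => (hN s l' l (by omega) h o).hG) (fun o _ => (hN s l' l (by omega) h o).hG')
    (A := fun w => WinBad m m.k s l' l w) hbad2
    (fun o _ w _ hA J X hJ hX _ => by
      have hA' : ¬ WinBad m m.k s l' l w := hA
      unfold WinBad at hA'
      rw [not_or, not_not, not_not] at hA'
      exact hW s l' l (by omega) h w hA'.1 hA'.2 o J X hJ hX)
    (fun o _ w hw _ t => by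
      have hl := Pool.Agent.Helper39.T5g.leaf_BwS_of_Zw (s := sz m s l' l) (R0 := R0) hm0 hSP
        (by unfold sz; omega) (by unfold sz; omega) (by unfold sz; omega) w (fun n => by
          have g1 := hZ l' l (sz m s l' l) (by omega) hll h.near h.split (by unfold sz; omega)
            (by unfold sz; omega) w hw 0 n
          rw [Pool.Agent.Helper22.NEARsg.ZwO_pos (by rw [sz_sub]; omega)] at g1
          exact g1) t
      rw [sz_sub] at hl
      have hLh : (PZ m m.k (hz m s l' l) l' l o).L (PZ m m.k (hz m s l' l) l' l o).h =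
          LL (QQ m m.k (sL m m.k l)) (sz m s l' l) := Pool.Agent.Helper39.T5g.PF_L _
      show ((Bw m m.k l (sz m s l' l) w ×ˢ Bw m m.k l' (hz m s l' l) w).filter
        (fun q => Jn m m.k (sL m m.k l) l * (PZ m m.k (hz m s l' l) l' l o).L
          (PZ m m.k (hz m s l' l) l' l o).h * q.1 + Jn m m.k (sL m m.k l) l' *
          (PZ m m.k (hz m s l' l) l' l o).L (PZ m m.k (hz m s l' l) l' l o).h * q.2 = t)).card ≤ R0
      rw [hLh]
      exact hl)
    hε hmult hN1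
  have hpow : 2 ^ (4 * hz m s l' l) ≤ 256 :=
    (Nat.pow_le_pow_right (by norm_num) (by omega : 4 * hz m s l' l ≤ 8)).trans (by norm_num)
  have hconst : 2 * 1000038 * (2 ^ (2 * m.q 0) * R0) ≤ 2 ^ ((E1 + 3) * m.q 0) := by
    have g1 : 2 * 1000038 ≤ 2 ^ m.q 0 :=
      (by norm_num : 2 * 1000038 ≤ 2 ^ 21).trans
        (Nat.pow_le_pow_right (by norm_num) (by omega))
    calc 2 * 1000038 * (2 ^ (2 * m.q 0) * R0) ≤ 2 ^ m.q 0 * (2 ^ (2 * m.q 0) * R0) :=
          Nat.mul_le_mul_right _ g1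
      _ = 2 ^ ((E1 + 3) * m.q 0) := by
          rw [hR0, ← pow_add, ← pow_add]
          congr 1
          ring
  refine PrG_mono (fun r _ hw => ?_) ?_ key
  · by_contra hcon
    obtain ⟨n, hn⟩ := hw
    push Not at hcon
    rcases Nat.lt_or_ge n (34 * NL m m.k l + 1) with h1 | h1
    · have h2 := R1 (ext K r) (CI * ((N + 1) ^ 256 * (2 ^ (2 * m.q 0) * R0))) n
        (fun o ho => (hcon o ho n h1).trans (Nat.mul_le_mul_left CI
          (Nat.mul_le_mul (Nat.pow_le_pow_right (by omega) hpow)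
            (Nat.mul_le_mul_right _ (Cd_PZ hF o)))))
      refine absurd (h2.trans ?_) (not_le.2 hn)
      calc 2 * 1000038 * (CI * ((N + 1) ^ 256 * (2 ^ (2 * m.q 0) * R0))) =
          CI * ((N + 1) ^ 256 * (2 * 1000038 * (2 ^ (2 * m.q 0) * R0))) := by ring
        _ ≤ _ := Nat.mul_le_mul_left _ (Nat.mul_le_mul_left _ hconst)
    · rw [R2 _ n h1] at hn
      exact absurd hn (Nat.not_lt_zero _)
  · exact fail_bound (OK m m.k l' 0) hq hexp S1 S2 (by
      have d1 := Pool.Agent.Helper45.T5g.card_OK hm0 b1' (by omega : 1 ≤ sL m m.k l') 0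
      have d2 : sL m m.k l' - 0 + 1 = sL m m.k l - 0 := by omega
      rw [d2] at d1
      exact d1) (SS_mono m (by omega : s ≤ sL m m.k l - 0)) hh2

end Pool.Agent.Helper21.T5g
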