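import Pool.Agent.Helper45.T5g.SZW
import Pool.Agent.Helper63.T5g.ZNum

/-!
# T5g, CaseSplitInj, line N: the numbers
-/

set_option autoImplicit false

namespace Pool.Agent.Helper21.T5g

open Finset Pool.Agent.Helper27.T4
open Pool.Agent.Helper37.T5g
open Pool.Agent.Helper30.T5g hiding pz_prime pz_inj NL_pos
open Pool.Agent.Helper22.HW Pool.Agent.Helper22.SL Pool.Agent.Helper57.T5
open Pool.Agent.Helper39.T5 Pool.Agent.Helper84.T5g
open Pool.Agent.Helper63.T5b (NumX)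
open Pool.Agent.Helper63.T5g (exists_lateN KG lg CIz CIz_nonneg exp_CIz cZ LateN lg_mono
  le_of_lg_le)
open Pool.Agent.Helper63.T5 (lam lam_gt lam_lt)

variable {m : Sq} {k s l' l : ℕ}

theorem LZn_anti (m : Sq) (k l' l : ℕ) {x : ℕ} (hx : l' ≤ x) :
    LZn m k l' l x ≤ LZn m k l' l l' := by
  unfold LZn
  refine Nat.mul_le_mul_left _ (Finset.prod_le_prod' (fun i _ => ?_))
  refine Nat.pow_le_pow_right (pJ_prime k _ i).pos ?_
  have h1 : aJ m k (sL m k l) l' i ≤ aJ m k (sL m k l) x i :=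
    Pool.Agent.Helper48.T5g.aJ_mono m k (sL m k l) hx i
  omega

theorem LZn_late (m : Sq) (k l' l : ℕ) {x : ℕ} (hll : l' ≤ l) (hx : l ≤ x) :
    LZn m k l' l x = CZ m k l' l := by
  unfold LZn
  have h0 : ∏ i, pJ k (sL m k l) i ^ ((aJ m k (sL m k l) l i + aJ m k (sL m k l) l' i -
      2 * aJ m k (sL m k l) x i) / 2) = 1 := by
    refine Finset.prod_eq_one (fun i _ => ?_)
    have h1 : aJ m k (sL m k l) l i ≤ aJ m k (sL m k l) x i :=
      Pool.Agent.Helper48.T5g.aJ_mono m k (sL m k l) hx i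
    have h2 : aJ m k (sL m k l) l' i ≤ aJ m k (sL m k l) l i :=
      Pool.Agent.Helper48.T5g.aJ_mono m k (sL m k l) hll i
    have h3 : (aJ m k (sL m k l) l i + aJ m k (sL m k l) l' i -
        2 * aJ m k (sL m k l) x i) / 2 = 0 := by omega
    rw [h3, pow_zero]
  rw [h0, mul_one]

theorem LZn_exp (hm : m.Ok) (h : SZ m k s l' l) :
    (LZn m k l' l l' : ℝ) ≤ Real.exp (CIz k + (lg m k l - lg m k l') / 2) := by
  have h1 := Pool.Agent.Helper45.T5g.LZn_le hm h
  rw [Real.exp_add, exp_CIz]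
  push_cast at h1
  exact h1

theorem CZ_exp (m : Sq) (k l' l : ℕ) : (CZ m k l' l : ℝ) ≤ Real.exp (CIz k) := by
  rw [exp_CIz]
  exact_mod_cast Pool.Agent.Helper45.T5g.CZ_le m k l' l

/-- **line N** -/
theorem numI {m : Sq} {k : ℕ} (hm : m.Ok) (hk : 2 ≤ k)
    [hQ : Pool.Agent.Helper30.T5g.BigQ m k] : NumI m k := by
  have hm0 := hm
  obtain ⟨l0, h0⟩ := exists_lateN hm k (cZ k)
  refine ⟨l0, fun s l' l hl' h o => ?_⟩
  have hL := h0 l' hl'
  have hbd := h.bd hm0 hk o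
  have hX := hbd.numX hm0 hL
  have hb := hbd.bigC hL
  have hI := LZn_exp hm0 h
  have hll := h.lt.le
  have hlam := lam_gt
  have hlam2 := lam_lt
  have hh2 := hz_le_two m s l' l
  have hS0 : (0 : ℝ) ≤ (SS m (s - hz m s l' l) : ℝ) := Nat.cast_nonneg _
  have hδ : dZ m s l' l ≤ (fun r => (SS m (s - r) : ℝ) * lam) (PW m k (hz m s l' l) l' l o).h := by
    show dZ m s l' l ≤ (SS m (s - hz m s l' l) : ℝ) * lam
    unfold dZ
    nlinarith
  have h42 : (3 : ℝ) * ((fun r => (SS m (s - r) : ℝ) * lam) 0) ≤ 42 * SS m s := by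
    show 3 * ((SS m (s - 0) : ℝ) * lam) ≤ 42 * SS m s
    rw [Nat.sub_zero]
    have h4 : (0 : ℝ) ≤ (SS m s : ℝ) := Nat.cast_nonneg _
    nlinarith
  refine ⟨?_, ?_, ?_, ?_⟩
  · intro r hr
    exact hX.hA hb hI hδ (r := r) hr
  · intro r hr hr1
    have hIr : IrZ m k l' l r = LZn m k l' l (ez m (s - r) l') := by
      unfold IrZ
      rw [if_neg (by omega), h.sl, show s + 1 - (1 + r) = s - r by omega]
    have hpc : (PZ m k (hz m s l' l) l' l o).pc r = (PW m k (hz m s l' l) l' l o).pc r := by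
      obtain ⟨u, rfl⟩ : ∃ u, r = u + 1 := ⟨r - 1, by omega⟩
      have e1 : (PZ m k (hz m s l' l) l' l o).F (u + 1) =
          (PW m k (hz m s l' l) l' l o).F (u + 1) := rfl
      have e2 : (PZ m k (hz m s l' l) l' l o).F' (u + 1) =
          (PW m k (hz m s l' l) l' l o).F' (u + 1) := rfl
      show ((PZ m k (hz m s l' l) l' l o).F' (u + 1) : ℝ) /
        (PZ m k (hz m s l' l) l' l o).F (u + 1) +
        1 / ((PZ m k (hz m s l' l) l' l o).q u 2 : ℝ) = _
      rw [e1, e2]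
      rfl
    rw [hpc, hIr]
    refine hX.hB hb hδ (r := r) hr hr1 ?_ ?_
    · intro hc
      have hc' : lg m k l - lg m k l' ≤ lg m k (ez m (s - r) l') - lg m k l' := hc
      have h2 : l ≤ ez m (s - r) l' := le_of_lg_le m k (by linarith)
      rw [LZn_late m k l' l hll h2]
      exact CZ_exp m k l' l
    · refine le_trans ?_ hI
      exact_mod_cast LZn_anti m k l' l (lt_ez hm0 _ l').le
  · intro r hr
    exact (hX.hG (r := r) hr).trans (Real.exp_le_exp.2 h42)
  · exact hX.hG'.trans (Real.exp_le_exp.2 h42)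

end Pool.Agent.Helper21.T5g
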