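import Pool.Agent.Helper21.T5g.SZGlue
import Pool.Agent.Helper21.T5g.SZNumI
import Pool.Agent.Helper12.T5g.SZKey
import Pool.Agent.Helper53.T5g.EndI
import Pool.Agent.Helper22.NEAR.Glue

/-!
# T5g: `Blk CaseSplitInj RpC`
-/

set_option autoImplicit false

namespace Pool.Agent.Helper21.T5g

open Finset Pool.Agent.Helper27.T4
open Pool.Agent.Helper37.T5g
open Pool.Agent.Helper30.T5g hiding pz_prime pz_inj NL_pos
open Pool.Agent.Helper22.HW Pool.Agent.Helper22.SL Pool.Agent.Helper57.T5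
open Pool.Agent.Helper39.T5 hiding deep
open Pool.Agent.Helper84.T5g Pool.Agent.Helper1.T5
open Pool.Agent.Helper99.T5g (OkF)

variable {m : Sq} {k s l' l : ℕ}

/-- the multiplicity of the labels below the joint front of the lower state -/
theorem SZ.mult_inj (hm : m.Ok) (h : SZ m k s l' l) (hf : l ≤ ef m k l' 0) (w : Key → ℕ)
    (s' : ℕ) : ((LaZ m k l' l).filter (fun z => VZ m k l' l w z = s')).card ≤
      (2 * BP k) ^ 10 := by
  have hr1 := h.P.rL1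
  refine le_trans ?_ (Pool.Agent.Helper45.T5g.CZ_le m k l' l)
  exact inj_split hm h.D (by omega) h.zf0 h.Qk h.AA hf w s'

theorem BP_ten (hm : OkF m) : (2 * BP m.k) ^ 10 ≤ 2 ^ (4 * m.q 0) := by
  have hsp : 1 ≤ 2 * BP m.k := by
    have := BP_pos m.k
    omega
  have h := Pool.Agent.Helper37.T5g.NumB.CD_le hm
  calc (2 * BP m.k) ^ 10 ≤ (2 * BP m.k) ^ 18 := Nat.pow_le_pow_right hsp (by norm_num)
    _ = (((2 * BP m.k) ^ 3) ^ 3) ^ 2 := by ring
    _ ≤ (2 ^ (2 * m.q 0)) ^ 2 := Nat.pow_le_pow_left h 2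
    _ = _ := by
        rw [← pow_mul]
        congr 1
        ring

/-- **CaseSplitInj** -/
theorem blk_splitInj : Blk CaseSplitInj RpC := by
  obtain ⟨E1, hP⟩ := pair_of
  obtain ⟨E2, hE⟩ := Pool.Agent.Helper53.T5g.endI
  refine ⟨4 + (E2 + E1), 3, fun m hF hk => ?_⟩
  have hQ := Pool.Agent.Helper30.T5g.bigQ_of_okF hF
  have hm0 : m.Ok := hF.toOk
  have hk2 : 2 ≤ m.k := hF.k2
  obtain ⟨k1, hP⟩ := hP m hF (Pool.Agent.Helper12.T5g.keyI hm0 hk) (numI hm0 hk2)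
    (Pool.Agent.Helper45.T5g.ppI hm0 hk2)
  obtain ⟨k2, hE⟩ := hE m hF
  obtain ⟨k3, hS⟩ := exists_SZ hm0 m.k
  obtain ⟨k4, hlast⟩ := Pool.Agent.Helper22.NEARg.exists_sqrt_le_SS_bL hF
  refine ⟨k1 + k2 + k3 + k4, 1 / 2, 10, by norm_num, by norm_num, ?_⟩
  intro l l' hl' hll _ hPl K hK1 hK2
  have h := hS l l' (by omega) hll hPl
  obtain ⟨N, hN1, hN2, hN3⟩ := hE _ l' l (by omega) h
  have key := hP _ l' l (by omega) h K hK1 hK2 ((2 * BP m.k) ^ 10) 0 le_rfl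
    (PrG_false (fun r _ hr => by
      obtain ⟨s', hs'⟩ := hr
      exact absurd (h.mult_inj hm0 hPl.2.2 _ s') (not_le.2 hs')) le_rfl) N hN1 hN2
  have e1 := hlast l l (by omega) (by omega)
  rw [← Pool.Agent.Helper22.NEAR.PrG_iff_PrLe]
  refine PrG_mono (fun r _ hw => ?_) ?_ key
  · obtain ⟨c, ⟨n, hc⟩, hn⟩ := hw
    subst hc
    refine ⟨n, lt_of_le_of_lt ?_ hn⟩
    calc (2 * BP m.k) ^ 10 * ((N + 1) ^ 256 * 2 ^ (E1 * m.q 0)) ≤
        2 ^ (4 * m.q 0) * (2 ^ (E2 * m.q 0) * 2 ^ (E1 * m.q 0)) :=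
          Nat.mul_le_mul (BP_ten hF) (Nat.mul_le_mul_right _ hN3)
      _ = 2 ^ ((4 + (E2 + E1)) * m.q 0) := by
          rw [← pow_add, ← pow_add]
          congr 1
          ring
  · rw [zero_add]
    exact mul_le_mul_of_nonneg_left (Real.exp_le_exp.2 (neg_le_neg e1)) (by norm_num)

end Pool.Agent.Helper21.T5g
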