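import Pool.Agent.Helper21.T5g.SZDefs
import Pool.Agent.Helper21.T5g.InjSplit

/-!
# T5g, CaseSplitInj: the labels

A label is `((x, x'), y)`: joint vector of the upper state, joint vector of the lower state, vector
of the level which has just been split off.
-/

set_option autoImplicit false

namespace Pool.Agent.Helper98.T5

open Finset Pool.Agent.Helper27.T4 Pool.Agent.Helper22.HW Pool.Agent.Helper22.SL
  Pool.Agent.Helper3.T5 Pool.Agent.Helper3.T4

variable {ι κ : Type*} [Fintype ι] [DecidableEq ι] {P : SP ι κ} {Mk : κ → ℕ}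

/-- decoding of the split level, sums in a class -/
theorem static_fiber_mod_g (hP : P.Ok Mk) (w : κ → ℕ) (s : ℕ) (z0 : (ι → ℕ) × (ι → ℕ))
    (F : Finset (Lb ι)) (hF : ∀ l ∈ F, (∃ (t : ℕ) (c : ℕ × ℕ × ℕ), Gd P w univ univ t (l, c) ∧
      ∀ j, t ≡ s [MOD P.pq j ^ P.z j]) ∧ l.1 = z0) : F.card ≤ P.CQ := by
  classical
  have h := card_code_pairs_le hP.prime hP.odd P.z P.z le_rfl rk3
    (fun i y => ((w (P.key2 z0.1 i y) : ℕ) : ZMod (P.pq i ^ P.z i)))
    (fun i _ => ((w (P.key3 i) : ℕ) : ZMod (P.pq i ^ P.z i)))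
    (fun i x y hxy => by
      have := (hP.s z0.1).dep i x y hxy
      have h2 : P.key2 z0.1 i x = P.key2 z0.1 i y := this
      rw [h2])
    (fun _ _ _ _ => rfl)
    (fun i => ((s : ℕ) : ZMod (P.pq i ^ P.z i)) - ((P.M.cd hP.m w z0.1 : ℕ) : ZMod _))
    (F.image (fun l => fun i => (l.2.1 i, l.2.2 i))) ?_
  · have h1 : (F.image (fun l : Lb ι => fun i => (l.2.1 i, l.2.2 i))).card = F.card := by
      apply Finset.card_image_of_injOn
      intro l hl l' hl' he
      have e1 := (hF l hl).2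
      have e2 := (hF l' hl').2
      refine Prod.ext (e1.trans e2.symm) (Prod.ext ?_ ?_)
      · funext i
        exact congrArg Prod.fst (congrFun he i)
      · funext i
        exact congrArg Prod.snd (congrFun he i)
    rw [h1] at h
    refine h.trans (le_of_eq ?_)
    unfold SP.CQ
    refine Finset.prod_congr rfl (fun i _ => ?_)
    rw [Nat.sub_self, Nat.zero_div, pow_zero, mul_one]
  · intro g hg i
    rw [mem_image] at hg
    obtain ⟨l, hl, rfl⟩ := hg
    obtain ⟨⟨t, c, hc, hts⟩, hz⟩ := hF l hl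
    have hy := hP.adm _ hc.y i
    have hy' := hP.adm _ hc.y' i
    refine ⟨hy.1, hy'.1, hy.2.1, hy'.2.1, hy.2.2, hy'.2.2, ?_⟩
    have e1 := hc.res2 i (mem_univ i)
    have e2 := hc.resq i
    have e3 := hc.cd_eq hP
    have e4 : ((s : ℕ) : ZMod (P.pq i ^ P.z i)) = ((c.1 : ℕ) : ZMod _) +
        ((c.2.1 : ℕ) : ZMod _) + ((c.2.2 : ℕ) : ZMod _) := by
      have e6 := (ZMod.natCast_eq_natCast_iff _ _ _).2 (hts i)
      have e7 : c.1 + c.2.1 + c.2.2 = t := hc.sum
      rw [← e6, ← e7]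
      push_cast
      rfl
    have e5 : c.1 = P.M.cd hP.m w z0.1 := by
      rw [← hz]
      exact e3
    simp only at e1 e2 ⊢
    rw [hz] at e1
    rw [← e1, e4, e5, ← e2]
    ring

end Pool.Agent.Helper98.T5

namespace Pool.Agent.Helper21.T5g

open Finset Pool.Agent.Helper27.T4
open Pool.Agent.Helper37.T5g
open Pool.Agent.Helper30.T5g hiding pz_prime pz_inj NL_pos
open Pool.Agent.Helper22.HW Pool.Agent.Helper22.SL Pool.Agent.Helper57.T5
open Pool.Agent.Helper39.T5 Pool.Agent.Helper84.T5g Pool.Agent.Helper98.T5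
open Pool.Agent.Helper98.T5g hiding pz_ne_two
open Pool.Agent.Helper48.T5g (SplitP Win Cpl)
open Pool.Agent.Helper54.T5g (SplitDig lowJ)
open Pool.Agent.Helper5.ET (bb era mask)

variable {m : Sq} {k s l' l : ℕ}

/-- a label -/
abbrev LZ : Type := ((JF → ℕ) × (JF → ℕ)) × (Fin 3 → ℕ)

/-- the labels of a pair -/
noncomputable def LaZ (m : Sq) (k l' l : ℕ) : Finset LZ := (XJ m k l ×ˢ XJ m k l') ×ˢ Ys m k l 0

/-- the sum of the codes of a label -/
noncomputable def VZ (m : Sq) (k l' l : ℕ) (w : Key → ℕ) (z : LZ) : ℕ :=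
  c0 m k l w z.1.1 + cs m k l 0 w (okey m k l 0 z.1.1) z.2 + c0 m k l' w z.1.2

/-- the context of a label: the outer key of the lower state -/
noncomputable def ctxZ (m : Sq) (k l' : ℕ) (z : LZ) : JF → ℕ := okey m k l' 0 z.1.2

theorem SZ.ssp (hm : m.Ok) (h : SZ m k s l' l) : (SSp m k l' l).Ok (Mk m k) := by
  have hr1 := h.P.rL1
  exact SSp_ok hm h.D (by omega) h.Qk (by rw [← FF_low h.D]; exact h.AA)

/-- the constant of the split level -/
noncomputable def CZ (m : Sq) (k l' l : ℕ) : ℕ :=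
  (M0 m k l' l).C * ∏ f, (2 * (pz k (sL m k l) f - 1))

/-- **number of labels in a class** -/
theorem SZ.class_count (hm : m.Ok) (h : SZ m k s l' l) (w : Key → ℕ) (b : JF → ℕ)
    (hb : ∀ i, b i ≤ aJ m k (sL m k l) (ef m k l' 0) i) (S : ℕ) :
    ((LaZ m k l' l).filter (fun z => (∀ i, VZ m k l' l w z ≡ S [MOD pJ k (sL m k l) i ^ b i]) ∧
      VZ m k l' l w z ≡ S [MOD QQ m k (sL m k l) 0])).card ≤
      CZ m k l' l * ∏ i, pJ k (sL m k l) i ^
        ((aJ m k (sL m k l) l i + aJ m k (sL m k l) l' i - 2 * b i) / 2) := by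
  classical
  have hP := h.ssp hm
  have hr1 := h.P.rL1
  have hM : (M0 m k l' l).Ok (Mk m k) := hP.m
  set Z := (M0 m k l' l).prs hM w b S with hZ
  have hZc : Z.card ≤ (M0 m k l' l).C * ∏ i, pJ k (sL m k l) i ^
      ((aJ m k (sL m k l) l i + aJ m k (sL m k l) l' i - 2 * b i) / 2) :=
    Pool.Agent.Helper18.T5.base_count hM w b hb S
  set F := ((LaZ m k l' l).filter (fun z =>
    (∀ i, VZ m k l' l w z ≡ S [MOD pJ k (sL m k l) i ^ b i]) ∧
      VZ m k l' l w z ≡ S [MOD QQ m k (sL m k l) 0])).image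
      (fun z => lab z.1.1 z.1.2 z.2) with hF
  have hFc : F.card = ((LaZ m k l' l).filter (fun z =>
    (∀ i, VZ m k l' l w z ≡ S [MOD pJ k (sL m k l) i ^ b i]) ∧
      VZ m k l' l w z ≡ S [MOD QQ m k (sL m k l) 0])).card := by
    refine Finset.card_image_of_injOn ?_
    intro z _ z' _ he
    have e1 : z.1.1 = z'.1.1 := congrArg (fun q : Lb JF => q.1.1) he
    have e2 : lowJ z.1.2 = lowJ z'.1.2 := congrArg (fun q : Lb JF => q.1.2) he
    have e3 : z.2 = z'.2 := congrArg (fun q : Lb JF => q.2.1) he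
    have e4 : nbv z.1.2 = nbv z'.1.2 := congrArg (fun q : Lb JF => q.2.2) he
    exact Prod.ext (Prod.ext e1 (lowJ_nbv_inj e2 e4)) e3
  rw [← hFc]
  have hmem : ∀ q ∈ F, (∃ (t : ℕ) (c : ℕ × ℕ × ℕ), Gd (SSp m k l' l) w univ univ t (q, c) ∧
      ∀ j, t ≡ S [MOD (SSp m k l' l).pq j ^ (SSp m k l' l).z j]) ∧ q.1 ∈ Z := by
    intro q hq
    rw [hF, mem_image] at hq
    obtain ⟨z, hzz, rfl⟩ := hq
    rw [mem_filter] at hzz
    obtain ⟨a, a4, a5⟩ := hzz
    unfold LaZ at a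
    rw [mem_product, mem_product] at a
    obtain ⟨⟨a1, a2⟩, a3⟩ := a
    have hg := gd_of hm h.D (by omega) h.zf0 w a1 a2 a3
    have hp := hg.prs hP (b := b) hb (fun i hi => absurd (mem_univ i) hi)
    refine ⟨⟨_, _, hg, fun j => ?_⟩, ?_⟩
    · refine a5.of_dvd ?_
      exact pow_dvd_NN (pz k (sL m k l - 0)) (zf m k (sL m k l - 0)) j
    · rw [hZ]
      have hp' : (lab z.1.1 z.1.2 z.2).1 ∈ (M0 m k l' l).prs hM w b (VZ m k l' l w z) := hp
      unfold Pool.Agent.Helper3.T5.MP.prs at hp' ⊢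
      rw [mem_filter] at hp' ⊢
      exact ⟨hp'.1, fun i => (hp'.2 i).trans (a4 i)⟩
  have h1 : F ⊆ Z.biUnion (fun z => F.filter (fun q => q.1 = z)) := by
    intro q hq
    rw [mem_biUnion]
    exact ⟨q.1, (hmem q hq).2, mem_filter.2 ⟨hq, rfl⟩⟩
  have h2 : F.card ≤ Z.card * (SSp m k l' l).CQ := by
    refine (Finset.card_le_card h1).trans ?_
    refine Finset.card_biUnion_le_card_mul Z _ (SSp m k l' l).CQ (fun z _ => ?_)
    refine static_fiber_mod_g hP w S z _ (fun q hq => ?_)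
    rw [mem_filter] at hq
    exact ⟨(hmem q hq.1).1, hq.2⟩
  refine h2.trans ?_
  refine (Nat.mul_le_mul_right _ hZc).trans (le_of_eq ?_)
  unfold CZ SP.CQ
  have e : (SSp m k l' l).pq = pz k (sL m k l) := rfl
  rw [e]
  ring

end Pool.Agent.Helper21.T5g
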