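import Pool.Agent.Helper21.T5g.SZDefs
import Pool.Agent.Helper63.T5g.NumGen

/-!
# T5g, CaseSplitInj: numbers of the pair
-/

set_option autoImplicit false

namespace Pool.Agent.Helper21.T5g

open Finset Pool.Agent.Helper27.T4
open Pool.Agent.Helper37.T5g
open Pool.Agent.Helper30.T5g hiding pz_prime pz_inj NL_pos
open Pool.Agent.Helper22.HW Pool.Agent.Helper22.SL Pool.Agent.Helper57.T5
open Pool.Agent.Helper39.T5 Pool.Agent.Helper84.T5g
open Pool.Agent.Helper48.T5g (SplitP Win Cpl)
open Pool.Agent.Helper54.T5g (SplitDig lowJ)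
open Pool.Agent.Helper5.ET (bb era mask)
open Pool.Agent.Helper63.T5b (NumX Big)
open Pool.Agent.Helper63.T5g (BD LateN KG lg Jn_real)
open Pool.Agent.Helper63.T5 (lam lam_gt lam_lt)

variable {m : Sq} {k s l' l : ℕ}

/-- completeness of the split triple at the positions of the window -/
theorem SZ.cpl (hm : m.Ok) (h : SZ m k s l' l) {x : ℕ} (h1 : l' ≤ x)
    (h2 : x ≤ l + SS m (s + 1)) : Cpl m k (s + 1) x :=
  (h.P.win x h1 h2).cpl_succ hm (le_of_eq h.sl'.symm)

theorem SZ.ez_le (hm : m.Ok) (h : SZ m k s l' l) {t x : ℕ} (ht : t ≤ s + 1) (hx : x ≤ l) :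
    ez m t x ≤ l + SS m (s + 1) := by
  have h1 := Pool.Agent.Helper48.T5g.ez_le_SS hm t x
  have h2 := SS_mono m ht
  omega

theorem pz_le_real (k t : ℕ) (i : Fin 3) : ((pz k t i : ℕ) : ℝ) ≤ BP k :=
  Nat.cast_le.2 (pz_le k t i)

/-- **the numbers of the block** -/
theorem SZ.bd (hm : m.Ok) (hk : 2 ≤ k) (h : SZ m k s l' l) (o : JF → ℕ) :
    BD (PW m k (hz m s l' l) l' l o) m k l' l (fun r => s - r) (RT m k (s + 1)) := by
  have hh2 := hz_le_two m s l' l
  have hks := h.P.ks
  have hll := h.lt.le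
  refine
    { le := hll
      R0 := by exact_mod_cast RT_pos m k _
      h3 := hh2.trans (by norm_num)
      M := ?_
      M' := ?_
      F := ?_
      F' := ?_
      q := ?_
      p := fun r _ i => pz_le_real k _ i
      vs := ?_
      vb := ?_
      D := fun r hr => h.D7 hm hr
      jump := ?_ }
  · show ((Jn m k (sL m k l) l : ℕ) : ℝ) = _
    rw [h.sl]
    exact Jn_real (h.cpl hm hll (Nat.le_add_right _ _))
  · show ((Jn m k (sL m k l) l' : ℕ) : ℝ) = _
    rw [h.sl]
    exact Jn_real (h.cpl hm le_rfl (hll.trans (Nat.le_add_right _ _)))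
  · intro r _
    show ((FF m k l (1 + r) : ℕ) : ℝ) = _
    rw [h.P.FF_upper, show s + 1 - (1 + r) = s - r by omega]
    exact Jn_real (h.cpl hm (hll.trans (lt_ez hm _ _).le) (h.ez_le hm (by omega) le_rfl))
  · intro r _
    show ((Jn m k (sL m k l) (ez m (sL m k l - (1 + r)) l') : ℕ) : ℝ) = _
    rw [h.sl, show s + 1 - (1 + r) = s - r by omega]
    exact Jn_real (h.cpl hm (lt_ez hm _ _).le (h.ez_le hm (by omega) hll))
  · intro r _ i
    show pz k (sL m k l - (1 + r)) i ^ zf m k (sL m k l - (1 + r)) i = _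
    rw [h.sl, show s + 1 - (1 + r) = s - r by omega]
    rfl
  · intro r hr
    have hr' : r < hz m s l' l := hr
    show s - (r + 1) < s - r
    omega
  · intro r hr
    have hr' : r ≤ hz m s l' l := hr
    show bL m k l' ≤ s - r
    rw [h.P.b']
    omega
  · intro r hr1 hr
    have hr' : r ≤ hz m s l' l := hr
    have h1 := h.jump (r + 1) (by omega) (by omega)
    rw [show s + 1 - (r + 1) = s - r by omega] at h1
    exact h1

/-- sizes of the windows and of the levels -/
noncomputable def wZ (m : Sq) (s r : ℕ) : ℝ := (SS m (s - r) : ℝ) * lam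

/-- leads of the upper state -/
noncomputable def sZ (m : Sq) (k s l r : ℕ) : ℝ := lg m k (ez m (s - r) l) - lg m k l

theorem SZ.numX (hm : m.Ok) (hk : 2 ≤ k) (h : SZ m k s l' l) (o : JF → ℕ) {c : ℝ}
    (hL : LateN m k c l') :
    NumX (PW m k (hz m s l' l) l' l o) (lg m k l - lg m k l') (wZ m s)
      (fun r => sZ m k s l r) (fun r => sZ m k s l' r) (KG k) :=
  (h.bd hm hk o).numX hm hL

/-! ## `Ok` -/

theorem LL_coprime_four (m : Sq) (k s u : ℕ) : (LL (QQ m k s) u).Coprime 4 := by
  have h2 : (LL (QQ m k s) u).Coprime 2 := by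
    unfold LL
    refine Nat.Coprime.prod_left (fun i _ => ?_)
    show (QT m k (s - i)).Coprime 2
    unfold QT QF
    refine Nat.Coprime.prod_left (fun f _ => Nat.Coprime.pow_left _ ?_)
    exact (Nat.coprime_primes (pz_prime k _ f) Nat.prime_two).2
      (Pool.Agent.Helper98.T5g.pz_ne_two k _ f)
  have e : (4 : ℕ) = 2 ^ 2 := by norm_num
  rw [e]
  exact Nat.Coprime.pow_right _ h2

/-- **the requirements of the static block** -/
theorem SZ.ok (hm : m.Ok) (hk : 2 ≤ k) (h : SZ m k s l' l) (o : JF → ℕ) {c : ℝ}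
    (hL : LateN m k c l') : (PZ m k (hz m s l' l) l' l o).Ok (Mk m k) := by
  have hX := h.numX hm hk o hL
  have hh2 := hz_le_two m s l' l
  have hks := h.P.ks
  have hll := h.lt.le
  have hlt := h.lt
  have hr1 := h.P.rL1
  have hr' := h.P.rL'
  have hS : SplitP m k (sL m k l') l' l := by
    rw [h.sl']
    exact h.P
  refine
    { prime := fun r i => pz_prime k _ i
      odd := fun r i => Pool.Agent.Helper98.T5g.pz_ne_two k _ i
      inj := fun r => pz_inj k _
      sok := ?_
      sok' := ?_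
      adm := fun r => Pool.Agent.Helper73.T5.sadm_of_adm (pz_prime k _)
        (fun f => Pool.Agent.Helper98.T5g.pz_ne_two k _ f)
        (Pool.Agent.Helper48.T5g.Ys_adm m k l (1 + r))
      kd := ?_
      kd' := ?_
      kdd' := ?_
      com := rfl
      posF := Nat.mul_pos (by norm_num) (Pool.Agent.Helper48.T5g.FF_pos _ _ _ _)
      posM' := Pool.Agent.Helper48.T5g.Jn_pos _ _ _ _
      posL := Pool.Agent.Helper48.T5g.LL_QQ_pos _ _ _ _
      M'M := Pool.Agent.Helper48.T5g.Jn_dvd _ _ _ hll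
      MF := ?_
      M'F' := ?_
      F'F := ?_
      FF := ?_
      F'F' := ?_
      copL := ?_
      size := ?_
      zF := ?_
      mid := ?_ }
  · intro r hr
    have hr2 : r < hz m s l' l := hr
    exact Pool.Agent.Helper39.T5g.PF_sok (by omega) hm
  · intro r hr
    have hr2 : r < hz m s l' l := hr
    exact Pool.Agent.Helper39.T5g.PF_sok' hm hS le_rfl (by omega)
  · intro r r' hrr i y i' y' hk
    have h1 : Key.S l (1 + r) i 0 (mask (univ.filter (fun g => g < i)) y) =
      Key.S l (1 + r') i' 0 (mask (univ.filter (fun g => g < i')) y') := hk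
    simp only [Key.S.injEq, true_and] at h1
    omega
  · intro r r' hrr i y i' y' hk
    have h1 : Key.S l' (1 - 1 + r) i (if 1 - 1 + r = 0 then o else 0)
        (mask (univ.filter (fun g => g < i)) y) =
      Key.S l' (1 - 1 + r') i' (if 1 - 1 + r' = 0 then o else 0)
        (mask (univ.filter (fun g => g < i')) y') := hk
    simp only [Key.S.injEq, true_and] at h1
    omega
  · intro r r' i y i' y' hk
    have h1 : Key.S l (1 + r) i 0 (mask (univ.filter (fun g => g < i)) y) =
      Key.S l' (1 - 1 + r') i' (if 1 - 1 + r' = 0 then o else 0)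
        (mask (univ.filter (fun g => g < i')) y') := hk
    simp only [Key.S.injEq] at h1
    omega
  · intro r _
    rcases r with _ | r
    · exact Dvd.dvd.mul_left (Pool.Agent.Helper48.T5g.Jn_dvd _ _ _ (lt_ez hm _ _).le) 4
    · exact Pool.Agent.Helper48.T5g.Jn_dvd _ _ _ (lt_ez hm _ _).le
  · intro r _
    rcases r with _ | r
    · exact Dvd.dvd.mul_left (Pool.Agent.Helper48.T5g.Jn_dvd _ _ _
        (hll.trans (lt_ez hm _ _).le)) 4
    · exact Pool.Agent.Helper48.T5g.Jn_dvd _ _ _ (lt_ez hm _ _).le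
  · intro r _
    rcases r with _ | r
    · exact dvd_rfl
    · exact Pool.Agent.Helper48.T5g.Jn_dvd _ _ _ (ez_mono m _ hll)
  · intro r _
    rcases r with _ | r
    · exact Dvd.dvd.mul_left (Pool.Agent.Helper48.T5g.FF_dvd_FF hm l (by omega)) 4
    · exact Pool.Agent.Helper48.T5g.FF_dvd_FF hm l (by omega)
  · intro r _
    rcases r with _ | r
    · refine Dvd.dvd.mul_left (Pool.Agent.Helper48.T5g.Jn_dvd _ _ _ ?_) 4
      exact (Pool.Agent.Helper30.T5g.ez_le hm (by omega) l').trans (ez_mono m _ hll)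
    · exact Pool.Agent.Helper48.T5g.Jn_dvd _ _ _
        (Pool.Agent.Helper30.T5g.ez_le hm (by omega) l')
  · intro r hr
    have hr2 : r ≤ hz m s l' l := hr
    rw [Pool.Agent.Helper39.T5g.PF_L]
    refine Nat.Coprime.mul_right (LL_coprime_four m k _ _) ?_
    exact (Pool.Agent.Helper48.T5g.cop_Jn_LL (by omega)).symm
  · intro r hr
    have h1 := hX.size8 (r := r) hr
    rcases r with _ | r
    · have e1 : 8 * (FF m k l (1 + 0) * (PZ m k (hz m s l' l) l' l o).L 0) ≤
        FF m k l (1 + (0 + 1)) * (PZ m k (hz m s l' l) l' l o).L (0 + 1) := h1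
      show 2 * (4 * FF m k l (1 + 0) * (PZ m k (hz m s l' l) l' l o).L 0) ≤
        FF m k l (1 + (0 + 1)) * (PZ m k (hz m s l' l) l' l o).L (0 + 1)
      calc 2 * (4 * FF m k l (1 + 0) * (PZ m k (hz m s l' l) l' l o).L 0)
          = 8 * (FF m k l (1 + 0) * (PZ m k (hz m s l' l) l' l o).L 0) := by ring
        _ ≤ _ := e1
    · have e1 : 8 * (FF m k l (1 + (r + 1)) * (PZ m k (hz m s l' l) l' l o).L (r + 1)) ≤
        FF m k l (1 + (r + 1 + 1)) * (PZ m k (hz m s l' l) l' l o).L (r + 1 + 1) := h1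
      show 2 * (FF m k l (1 + (r + 1)) * (PZ m k (hz m s l' l) l' l o).L (r + 1)) ≤
        FF m k l (1 + (r + 1 + 1)) * (PZ m k (hz m s l' l) l' l o).L (r + 1 + 1)
      omega
  · intro r hr
    have h1 := hX.zF24 (r := r) hr
    rcases r with _ | r
    · have e1 : 24 * FF m k l (1 + 0) < Jn m k (sL m k l) l' *
        (PZ m k (hz m s l' l) l' l o).q 0 0 := h1
      show 6 * (4 * FF m k l (1 + 0)) < Jn m k (sL m k l) l' *
        (PZ m k (hz m s l' l) l' l o).q 0 0
      omega
    · have e1 : 24 * FF m k l (1 + (r + 1)) < Jn m k (sL m k l) l' *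
        (PZ m k (hz m s l' l) l' l o).q (r + 1) 0 := h1
      show 6 * FF m k l (1 + (r + 1)) < Jn m k (sL m k l) l' *
        (PZ m k (hz m s l' l) l' l o).q (r + 1) 0
      omega
  · intro r hr
    exact hX.mid (r := r) hr

end Pool.Agent.Helper21.T5g
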