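import Pool.Agent.Helper21.T5g.SZStmts
import Pool.Agent.Helper21.T5g.SZCtx
import Pool.Agent.Helper39.T5g.InRepS
import Pool.Agent.Helper27.T5g.Range

/-!
# T5g, pairs across SPLIT without common front: representations and labels (line R)
-/

set_option autoImplicit false

namespace Pool.Agent.Helper21.T5g

open Finset Pool.Agent.Helper27.T4
open Pool.Agent.Helper37.T5g
open Pool.Agent.Helper30.T5g hiding pz_prime pz_inj NL_pos
open Pool.Agent.Helper22.HW Pool.Agent.Helper22.SL Pool.Agent.Helper57.T5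
open Pool.Agent.Helper39.T5 Pool.Agent.Helper84.T5g Pool.Agent.Helper1.T5
open Pool.Agent.Helper48.T5g (SplitP Win Cpl)
open Pool.Agent.Helper54.T5g (SplitDig lowJ)
open Pool.Agent.Helper5.ET (bb era mask)
open Pool.Agent.Helper45.T5g (OK)
open Pool.Agent.Helper44.T5g (Zw mem_Zw dvd_Zw)
open Pool.Agent.Helper22.NEARg (RegE)
open Pool.Agent.Helper22.NEARsg (Bw ZwO deep)

variable {m : Sq} {k s l' l : ℕ}

/-- the elements of a state, all levels below the joint one -/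
theorem AA_zero {w : Key → ℕ} {a : ℕ} (ha : a ∈ AA m k l w) :
    ∃ x ∈ XJ m k l, ∃ u ∈ ZwO m k l 0 (okey m k l 0 x) w, a = c0 m k l w x + u := by
  unfold AA at ha
  rw [mem_image] at ha
  obtain ⟨⟨⟨x, y⟩, u⟩, hq, rfl⟩ := ha
  simp only [mem_product, Fintype.mem_piFinset, mem_image] at hq
  obtain ⟨⟨hx, hy⟩, v, hv, rfl⟩ := hq
  set Y : ℕ → Fin 3 → ℕ := fun t => if h : t < rL m k l then y ⟨t, h⟩ else 0 with hY
  have hYt : ∀ t : Fin (rL m k l), Y t = y t := by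
    intro t
    simp [hY]
  refine ⟨x, hx, _, Pool.Agent.Helper39.T5g.mem_ZwO.2 ⟨Y, fun t _ h2 => ?_, v, hv, rfl⟩, ?_⟩
  · have := hy ⟨t, h2⟩
    rw [← hYt] at this
    exact this
  · unfold el
    have h1 : ∑ t : Fin (rL m k l), cs m k l t w (okey m k l t x) (y t) =
        ∑ t ∈ Ico 0 (rL m k l), cs m k l t w (if t = 0 then okey m k l 0 x else 0) (Y t) := by
      rw [← Finset.range_eq_Ico, ← Fin.sum_univ_eq_sum_range
        (fun t => cs m k l t w (if t = 0 then okey m k l 0 x else 0) (Y t))]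
      refine Finset.sum_congr rfl (fun t _ => ?_)
      rw [hYt]
      by_cases ht : (t : ℕ) = 0
      · rw [if_pos ht, ht]
      · rw [if_neg ht, Pool.Agent.Helper44.T5g.okey_pos ht]
    rw [h1]
    ring

/-- the elements of a state, the static level `0` separate -/
theorem AA_one (hr : 1 ≤ rL m k l) {w : Key → ℕ} {a : ℕ} (ha : a ∈ AA m k l w) :
    ∃ x ∈ XJ m k l, ∃ y ∈ Ys m k l 0, ∃ u ∈ Zw m k l 1 w,
      a = c0 m k l w x + cs m k l 0 w (okey m k l 0 x) y + u := by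
  obtain ⟨x, hx, u, hu, rfl⟩ := AA_zero ha
  obtain ⟨y, hy, u', hu', he⟩ := Pool.Agent.Helper39.T5g.ZwO_split 1 le_rfl (by omega) hu
  refine ⟨x, hx, y 0, hy 0 (by norm_num), u', hu', ?_⟩
  rw [he]
  simp
  ring

/-- the joint modulus of the lower state divides the windows -/
theorem SZ.dvd_upper (hm : m.Ok) (h : SZ m k s l' l) {w : Key → ℕ} {u : ℕ}
    (hu : u ∈ Zw m k l 1 w) : Jn m k (sL m k l) l' ∣ u := by
  have hr1 := h.P.rL1
  have h1 := dvd_Zw hm (by omega) hu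
  exact ((Pool.Agent.Helper48.T5g.Jn_dvd m k _ h.lt.le).trans (dvd_mul_right _ _)).trans h1

theorem SZ.dvd_lower (hm : m.Ok) (h : SZ m k s l' l) {o : JF → ℕ} {w : Key → ℕ} {u : ℕ}
    (hu : u ∈ ZwO m k l' 0 o w) : Jn m k (sL m k l) l' ∣ u := by
  have hs := h.sl
  have hs' := h.sl'
  have h0 : Jn m k (sL m k l) l' ∣ Jn m k (sL m k l') l' := by
    have h1 := (h.P.win l' le_rfl (h.lt.le.trans (Nat.le_add_right _ _))).Jn_split hm
    rw [hs, hs', h1]
    exact dvd_mul_right _ _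
  obtain ⟨y, hy, v, hv, rfl⟩ := Pool.Agent.Helper39.T5g.mem_ZwO.1 hu
  refine dvd_add (Finset.dvd_sum (fun t _ => ?_)) ?_
  · refine dvd_trans ?_ (Pool.Agent.Helper48.T5g.cs_dvd m k l' t w _ _)
    refine Dvd.dvd.mul_right (h0.trans ?_) _
    exact Pool.Agent.Helper48.T5g.Jn_dvd m k _ (lt_ez hm _ _).le
  · refine Dvd.dvd.mul_right ?_ _
    unfold Un
    exact Dvd.dvd.mul_right h0 _

/-- **representations from contexts** -/
theorem SZ.Rp_le (hm : m.Ok) (h : SZ m k s l' l) (w : Key → ℕ) (R n : ℕ)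
    (hR : ∀ o ∈ OK m k l' 0, (((LaZ m k l' l).filter (fun z => ctxZ m k l' z = o) ×ˢ
        (Zw m k l 1 w ×ˢ ZwO m k l' 0 o w)).filter
          (fun z => VZ m k l' l w z.1 + (z.2.1 + z.2.2) = n)).card ≤ R) :
    Rp m k l l' w n ≤ NCx * R := by
  classical
  have hr1 := h.P.rL1
  set Q := (Pool.Agent.Helper84.T5g.AA m k l w ×ˢ Pool.Agent.Helper84.T5g.AA m k l' w).filter (fun q => q.1 + q.2 = n) with hQ
  have hex : ∀ q : ℕ × ℕ, ∃ f : LZ × (ℕ × ℕ), q ∈ Q →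
      f.1 ∈ LaZ m k l' l ∧ f.2.1 ∈ Zw m k l 1 w ∧ f.2.2 ∈ ZwO m k l' 0 (ctxZ m k l' f.1) w ∧
      q.1 = c0 m k l w f.1.1.1 + cs m k l 0 w (okey m k l 0 f.1.1.1) f.1.2 + f.2.1 ∧
      q.2 = c0 m k l' w f.1.1.2 + f.2.2 := by
    intro q
    by_cases hq : q ∈ Q
    · rw [hQ, mem_filter, mem_product] at hq
      obtain ⟨x, hx, y, hy, u, hu, e1⟩ := AA_one (by omega) hq.1.1
      obtain ⟨x', hx', u', hu', e2⟩ := AA_zero hq.1.2
      refine ⟨(((x, x'), y), (u, u')), fun _ => ⟨?_, hu, hu', e1, e2⟩⟩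
      unfold LaZ
      rw [mem_product, mem_product]
      exact ⟨⟨hx, hx'⟩, hy⟩
    · exact ⟨(((0, 0), 0), (0, 0)), fun h => absurd h hq⟩
  choose f hf using hex
  have hinj : Set.InjOn f (Q : Set (ℕ × ℕ)) := by
    intro q hq q' hq' he
    have h1 := hf q hq
    have h2 := hf q' hq'
    refine Prod.ext ?_ ?_
    · rw [h1.2.2.2.1, h2.2.2.2.1, he]
    · rw [h1.2.2.2.2, h2.2.2.2.2, he]
  have hsum : ∀ q ∈ Q, VZ m k l' l w (f q).1 + ((f q).2.1 + (f q).2.2) = n := by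
    intro q hq
    have h1 := hf q hq
    rw [hQ, mem_filter] at hq
    have h2 := hq.2
    rw [h1.2.2.2.1, h1.2.2.2.2] at h2
    unfold VZ
    omega
  set S := Q.image (fun q => (f q).1) with hS
  have hctx : (S.image (ctxZ m k l')).card ≤ NCx := by
    refine h.ctx_count hm w n S (fun z hz => ?_)
    rw [hS, mem_image] at hz
    obtain ⟨q, hq, rfl⟩ := hz
    obtain ⟨h1, h2, h3, -, -⟩ := hf q hq
    unfold LaZ at h1
    rw [mem_product, mem_product] at h1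
    refine ⟨h1.1.1, h1.1.2, ?_⟩
    have h4 := hsum q hq
    have h5 : Jn m k (sL m k l) l' ∣ (f q).2.1 + (f q).2.2 :=
      dvd_add (h.dvd_upper hm h2) (h.dvd_lower hm h3)
    have h6 : VZ m k l' l w (f q).1 + ((f q).2.1 + (f q).2.2) ≡
        VZ m k l' l w (f q).1 + 0 [MOD Jn m k (sL m k l) l'] :=
      Nat.ModEq.add_left _ ((Nat.modEq_zero_iff_dvd).2 h5)
    rw [h4, add_zero] at h6
    exact h6.symm
  have hsub : Q.image f ⊆ (S.image (ctxZ m k l')).biUnion (fun o =>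
      ((LaZ m k l' l).filter (fun z => ctxZ m k l' z = o) ×ˢ
        (Zw m k l 1 w ×ˢ ZwO m k l' 0 o w)).filter
          (fun z => VZ m k l' l w z.1 + (z.2.1 + z.2.2) = n)) := by
    intro g hg
    rw [mem_image] at hg
    obtain ⟨q, hq, rfl⟩ := hg
    obtain ⟨h1, h2, h3, -, -⟩ := hf q hq
    rw [mem_biUnion]
    refine ⟨ctxZ m k l' (f q).1, mem_image_of_mem _ (mem_image_of_mem _ hq), ?_⟩
    rw [mem_filter, mem_product, mem_product, mem_filter]
    exact ⟨⟨⟨h1, rfl⟩, h2, h3⟩, hsum q hq⟩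
  have hQc : Rp m k l l' w n = (Q.image f).card := by
    rw [Finset.card_image_of_injOn hinj]
    rfl
  rw [hQc]
  refine (card_le_card hsub).trans ?_
  refine (Finset.card_biUnion_le_card_mul _ _ R (fun o ho => ?_)).trans
    (Nat.mul_le_mul_right _ hctx)
  rw [mem_image] at ho
  obtain ⟨z, hz, rfl⟩ := ho
  rw [hS, mem_image] at hz
  obtain ⟨q, hq, rfl⟩ := hz
  have h1 := (hf q hq).1
  unfold LaZ at h1
  rw [mem_product, mem_product] at h1
  have h2 := hR (ctxZ m k l' (f q).1) (mem_image_of_mem _ h1.1.2)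
  convert h2

/-- the range of the sums -/
theorem exists_Rp_zero (hm : m.Ok) (k : ℕ)
    [hQ : Pool.Agent.Helper30.T5g.BigQ m k] : ∃ l0 : ℕ, ∀ l' l, l0 ≤ l' → l' ≤ l →
    ∀ (w : Key → ℕ) (n : ℕ), 34 * NL m k l + 1 ≤ n → Rp m k l l' w n = 0 := by
  obtain ⟨l0, h0⟩ := Pool.Agent.Helper27.T5g.exists_AA_range hm k
  refine ⟨l0, fun l' l hl' hl w n hn => ?_⟩
  unfold Rp
  rw [card_eq_zero, filter_eq_empty_iff]
  intro q hq he
  rw [mem_product] at hq
  have h1 := (h0 l (hl'.trans hl) w _ hq.1).2.1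
  have h2 := (h0 l' hl' w _ hq.2).2.1
  have h3 : NL m k l' ≤ NL m k l := Nat.le_of_dvd (Pool.Agent.Helper27.T5g.NL_pos m k l)
    (Pool.Agent.Helper30.T5g.NL_dvd m k hl)
  omega

theorem NCx_eq : NCx = 2 * 1000038 := by
  unfold NCx
  norm_num

/-- **line R** -/
theorem rpI (hm : m.Ok) (k : ℕ)
    [hQ : Pool.Agent.Helper30.T5g.BigQ m k] : RpI m k := by
  obtain ⟨l0, h0⟩ := exists_Rp_zero hm k
  refine ⟨l0, fun s l' l hl' h => ⟨fun w R n hR => ?_, h0 l' l hl' h.lt.le⟩⟩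
  rw [← NCx_eq]
  exact h.Rp_le hm w R n hR

end Pool.Agent.Helper21.T5g
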