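import Pool.Agent.Helper21.T5g.SZLab
import Pool.Agent.Helper21.T5b.NearL0

/-!
# T5g, CaseSplitInj: the targets
-/

set_option autoImplicit false

namespace Pool.Agent.Helper21.T5g

open Finset Pool.Agent.Helper27.T4
open Pool.Agent.Helper37.T5g
open Pool.Agent.Helper30.T5g hiding pz_prime pz_inj NL_pos
open Pool.Agent.Helper22.HW Pool.Agent.Helper22.SL Pool.Agent.Helper57.T5
open Pool.Agent.Helper39.T5 Pool.Agent.Helper84.T5g Pool.Agent.Helper1.T5
open Pool.Agent.Helper48.T5g (SplitP Win Cpl)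
open Pool.Agent.Helper54.T5g (SplitDig lowJ)
open Pool.Agent.Helper5.ET (bb era mask)
open Pool.Agent.Helper21.T5b.L0 (LbL TgL)

variable {m : Sq} {k s l' l : ℕ}

/-- bound for the number of labels in a class modulo `Jn x` -/
noncomputable def LZn (m : Sq) (k l' l x : ℕ) : ℕ :=
  CZ m k l' l * ∏ i, pJ k (sL m k l) i ^
    ((aJ m k (sL m k l) l i + aJ m k (sL m k l) l' i - 2 * aJ m k (sL m k l) x i) / 2)

/-- the class numbers -/
noncomputable def IrZ (m : Sq) (k l' l r : ℕ) : ℕ :=
  LZn m k l' l (if r = 0 then l' else ez m (sL m k l - (1 + r)) l')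

theorem LL_one (Q : ℕ → ℕ) : LL Q 1 = Q 0 := by
  simp [LL]

/-- the labels below the window of the targets -/
theorem SZ.V_lt (hm : m.Ok) (h : SZ m k s l' l) (w : Key → ℕ) (z : LZ) :
    VZ m k l' l w z < 3 * (FF m k l 1 * LL (QQ m k (sL m k l)) 1) := by
  have h1 := Pool.Agent.Helper48.T5g.c0_lt m k l w z.1.1
  have h2 := Pool.Agent.Helper48.T5g.cs_lt m k l 0 w (okey m k l 0 z.1.1) z.2
  have h3 := Pool.Agent.Helper48.T5g.c0_lt m k l' w z.1.2
  have h4 := h.AA
  have h5 : FF m k l' 0 ≤ FF m k l 1 * LL (QQ m k (sL m k l)) 1 := by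
    rw [Pool.Agent.Helper98.T5g.FF_low h.D, LL_one]
    apply Nat.mul_le_mul_right
    refine Pool.Agent.Helper48.T5g.Jn_le m k _ ?_
    rw [h.ef0' 0, h.ef1 1, Nat.sub_zero, show s + 1 - 1 = s from rfl]
    exact ez_mono m s h.lt.le
  unfold VZ
  rw [zero_add] at h2
  omega

/-- **the targets of a context fit to the static block** -/
theorem SZ.tgS (hm : m.Ok) (h : SZ m k s l' l) (hh : ℕ) (o : JF → ℕ) (w : Key → ℕ) (n : ℕ)
    (A : LZ → Prop) [DecidablePred A] :
    TgS (PZ m k hh l' l o)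
      (TgL (PZ m k hh l' l o) ((LaZ m k l' l).filter A) (VZ m k l' l w) n)
      (IrZ m k l' l) := by
  classical
  have hF' : ∀ r, 1 ≤ r → (PZ m k hh l' l o).F' r =
      Jn m k (sL m k l) (ez m (sL m k l - (1 + r)) l') := by
    intro r hr
    show (if r = 0 then _ else _) = _
    rw [if_neg (by omega)]
    rfl
  have hM' : (PZ m k hh l' l o).M' * (PZ m k hh l' l o).L0 =
      Jn m k (sL m k l) l' * LL (QQ m k (sL m k l)) 1 := rfl
  set Lb := LbL (PZ m k hh l' l o) ((LaZ m k l' l).filter A) (VZ m k l' l w) n with hLb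
  have hmem : ∀ z ∈ Lb, z ∈ LaZ m k l' l ∧ VZ m k l' l w z ≤ n ∧
      Jn m k (sL m k l) l' * LL (QQ m k (sL m k l)) 1 ∣ n - VZ m k l' l w z := by
    intro z hz
    rw [hLb] at hz
    unfold LbL at hz
    rw [mem_filter, mem_filter, hM'] at hz
    exact ⟨hz.1.1, hz.2.1, hz.2.2⟩
  have hT : TgL (PZ m k hh l' l o) ((LaZ m k l' l).filter A) (VZ m k l' l w) n =
      Lb.image (fun z => n - VZ m k l' l w z) := rfl
  rw [hT]
  have hww : ∀ t ∈ Lb.image (fun z => n - VZ m k l' l w z),
      ∀ u ∈ Lb.image (fun z => n - VZ m k l' l w z),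
      t < u + 4 * FF m k l 1 * LL (QQ m k (sL m k l)) 1 := by
    intro t ht u hu
    rw [mem_image] at ht hu
    obtain ⟨z, hz, rfl⟩ := ht
    obtain ⟨z', hz', rfl⟩ := hu
    have h1 := hmem z hz
    have h2 := hmem z' hz'
    have h3 := h.V_lt hm w z'
    rw [mul_assoc]
    omega
  -- congruences
  have hmod : ∀ z ∈ Lb, VZ m k l' l w z ≡ n [MOD Jn m k (sL m k l) l'] ∧
      VZ m k l' l w z ≡ n [MOD QQ m k (sL m k l) 0] := by
    intro z hz
    obtain ⟨-, h2, h3⟩ := hmem z hz
    have h4 := (Nat.modEq_iff_dvd' h2).2 h3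
    rw [LL_one] at h4
    exact ⟨h4.of_dvd (dvd_mul_right _ _), h4.of_dvd (dvd_mul_left _ _)⟩
  refine ⟨?_, hww, ?_⟩
  · intro t ht
    rw [mem_image] at ht
    obtain ⟨z, hz, rfl⟩ := ht
    rw [hM']
    exact (hmem z hz).2.2
  · intro r hr c
    rcases Nat.eq_zero_or_pos r with rfl | hr1
    · refine (card_le_card (filter_subset _ _)).trans (card_image_le.trans ?_)
      refine le_trans (card_le_card ?_) (h.class_count hm w (aJ m k (sL m k l) l')
        (fun i => Pool.Agent.Helper48.T5g.aJ_mono m k _ h.D.le' i) n)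
      intro z hz
      refine mem_filter.2 ⟨(hmem z hz).1, fun i => ?_, (hmod z hz).2⟩
      exact (hmod z hz).1.of_dvd (pow_dvd_NN (pJ k (sL m k l)) (aJ m k (sL m k l) l') i)
    · set T := (Lb.image (fun z => n - VZ m k l' l w z)).filter
        (fun t => t % (PZ m k hh l' l o).F' r = c % (PZ m k hh l' l o).F' r) with hTd
      by_cases hne : T.Nonempty
      swap
      · rw [not_nonempty_iff_eq_empty] at hne
        rw [hne, card_empty]
        exact Nat.zero_le _
      obtain ⟨t0, ht0⟩ := hne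
      rw [hTd, mem_filter, mem_image] at ht0
      obtain ⟨⟨z0, hz0, hz0t⟩, hc0⟩ := ht0
      have hx : ez m (sL m k l - (1 + r)) l' ≤ ef m k l' 0 := by
        unfold ef
        apply Pool.Agent.Helper30.T5g.ez_le hm
        rw [h.sl, h.sl']
        omega
      have hcount := h.class_count hm w
        (aJ m k (sL m k l) (ez m (sL m k l - (1 + r)) l'))
        (fun i => Pool.Agent.Helper48.T5g.aJ_mono m k _ hx i) (VZ m k l' l w z0)
      have hIr : IrZ m k l' l r = LZn m k l' l (ez m (sL m k l - (1 + r)) l') := by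
        unfold IrZ
        rw [if_neg (by omega)]
      rw [hIr]
      refine le_trans ?_ hcount
      refine le_trans (card_le_card (t := ((LaZ m k l' l).filter (fun z =>
        (∀ i, VZ m k l' l w z ≡ VZ m k l' l w z0 [MOD pJ k (sL m k l) i ^
          aJ m k (sL m k l) (ez m (sL m k l - (1 + r)) l') i]) ∧
        VZ m k l' l w z ≡ VZ m k l' l w z0 [MOD QQ m k (sL m k l) 0])).image
          (fun z => n - VZ m k l' l w z)) ?_) card_image_le
      intro t ht
      rw [hTd, mem_filter, mem_image] at ht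
      obtain ⟨⟨z, hz, hzt⟩, hc⟩ := ht
      rw [mem_image]
      refine ⟨z, mem_filter.2 ⟨(hmem z hz).1, ?_, ?_⟩, hzt⟩
      · intro i
        have h3 : t ≡ t0 [MOD (PZ m k hh l' l o).F' r] := hc.trans hc0.symm
        rw [hF' r hr1] at h3
        have h4 := h3.of_dvd (pow_dvd_NN (pJ k (sL m k l))
          (aJ m k (sL m k l) (ez m (sL m k l - (1 + r)) l')) i)
        have e1 : VZ m k l' l w z + t = n := by
          have := (hmem z hz).2.1
          rw [← hzt]
          omega
        have e2 : VZ m k l' l w z0 + t0 = n := by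
          have := (hmem z0 hz0).2.1
          rw [← hz0t]
          omega
        have h5 : VZ m k l' l w z + t ≡ VZ m k l' l w z0 + t
            [MOD pJ k (sL m k l) i ^ aJ m k (sL m k l) (ez m (sL m k l - (1 + r)) l') i] := by
          rw [e1, ← e2]
          exact Nat.ModEq.add_left _ h4.symm
        exact Nat.ModEq.add_right_cancel' _ h5
      · exact (hmod z hz).2.trans (hmod z0 hz0).2.symm

/-- the number of targets -/
theorem SZ.card_tg (hm : m.Ok) (h : SZ m k s l' l) (hh : ℕ) (o : JF → ℕ) (w : Key → ℕ) (n : ℕ)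
    (A : LZ → Prop) [DecidablePred A] :
    (TgL (PZ m k hh l' l o) ((LaZ m k l' l).filter A) (VZ m k l' l w) n).card ≤
      LZn m k l' l l' := by
  classical
  have h1 := (h.tgS hm hh o w n A).cls 0 (Nat.zero_le _) 0
  have hw := (h.tgS hm hh o w n A).win
  refine card_image_le.trans ?_
  refine le_trans (card_le_card ?_) (h.class_count hm w (aJ m k (sL m k l) l')
    (fun i => Pool.Agent.Helper48.T5g.aJ_mono m k _ h.D.le' i) n)
  intro z hz
  have hM' : (PZ m k hh l' l o).M' * (PZ m k hh l' l o).L0 =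
      Jn m k (sL m k l) l' * LL (QQ m k (sL m k l)) 1 := rfl
  unfold LbL at hz
  rw [mem_filter, mem_filter, hM', LL_one] at hz
  obtain ⟨⟨h2, -⟩, h3, h4⟩ := hz
  have h5 := (Nat.modEq_iff_dvd' h3).2 h4
  refine mem_filter.2 ⟨h2, fun i => ?_, h5.of_dvd (dvd_mul_left _ _)⟩
  exact (h5.of_dvd (dvd_mul_right _ _)).of_dvd
    (pow_dvd_NN (pJ k (sL m k l)) (aJ m k (sL m k l) l') i)

end Pool.Agent.Helper21.T5g
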